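import Pool.Agent.Lib.MP_0960bd_co.Final
import Pool.Agent.Lib.MP_0960bd_co.EncMain

/-!
# MP_0960bd_co : the aperiodic ball tile in every large dimension (helper68)

Companion of the proof of S07062 (helpers 94, 95, 80): the discrete theorem is padded to every larger rank, and the
geometric part is read off in a fixed dimension.
-/

set_option autoImplicit false
set_option linter.unusedSectionVars false

noncomputable section

namespace Pool.Agent.BallTile

open Set MeasureTheory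

/-- the discrete theorem in rank `m` -/
def DiscreteAt (m : ℕ) : Prop :=
  ∃ (J n : ℕ) (X : Fin J → Fin n → (Fin m → ℤ)),
    (∃ T, ∀ b, Tiles T (X b)) ∧
    ¬ ∃ T, (∀ b, Tiles T (X b)) ∧
      ∃ N : ℤ, 0 < N ∧ ∀ i, ∀ t ∈ T, t + Pi.single i N ∈ T ∧ t - Pi.single i N ∈ T

theorem cons_add_cons {m : ℕ} (a b : ℤ) (x y : Fin m → ℤ) :
    (Fin.cons a x : Fin (m + 1) → ℤ) + Fin.cons b y = Fin.cons (a + b) (x + y) := by
  funext i
  refine Fin.cases ?_ (fun j => ?_) i <;> simp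

theorem cons_single {m : ℕ} (i : Fin m) (N : ℤ) :
    (Pi.single i.succ N : Fin (m + 1) → ℤ) = Fin.cons 0 (Pi.single i N) := by
  funext j
  refine Fin.cases ?_ (fun k => ?_) j
  · simp
  · simp [Pi.single_apply]

theorem DiscreteAt.succ {m : ℕ} (h : DiscreteAt m) : DiscreteAt (m + 1) := by
  obtain ⟨J, n, X, ⟨T, hT⟩, hno⟩ := h
  refine ⟨J, n, fun b i => Fin.cons 0 (X b i), ⟨{z | Fin.tail z ∈ T}, ?_⟩, ?_⟩
  · intro b z
    obtain ⟨⟨t, i⟩, ⟨h1, h2⟩, h3⟩ := hT b (Fin.tail z)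
    simp only at h1 h2 h3
    refine ⟨(Fin.cons (z 0) t, i), ⟨?_, ?_⟩, ?_⟩
    · simpa [Fin.tail_cons] using h1
    · simp only
      rw [cons_add_cons, add_zero, h2, Fin.cons_self_tail]
    · rintro ⟨w, k⟩ ⟨hw, hwz⟩
      simp only [mem_ofPred_eq] at hw hwz
      rw [← Fin.cons_self_tail w, cons_add_cons, add_zero] at hwz
      have e1 : Fin.tail w + X b k = Fin.tail z := by
        rw [← hwz, Fin.tail_cons]
      have e2 : w 0 = z 0 := by
        rw [← hwz, Fin.cons_zero]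
      have := h3 (Fin.tail w, k) ⟨hw, e1⟩
      rw [Prod.mk.injEq] at this
      rw [Prod.mk.injEq]
      refine ⟨?_, this.2⟩
      rw [← Fin.cons_self_tail w, this.1, e2]
  · rintro ⟨T', hT', N, hN, hper⟩
    apply hno
    refine ⟨{t | (Fin.cons 0 t : Fin (m + 1) → ℤ) ∈ T'}, ?_, N, hN, ?_⟩
    · intro b z
      obtain ⟨⟨t, i⟩, ⟨h1, h2⟩, h3⟩ := hT' b (Fin.cons 0 z)
      simp only at h1 h2 h3
      rw [← Fin.cons_self_tail t, cons_add_cons, add_zero] at h2
      have e0 : t 0 = 0 := by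
        have := congrFun h2 0
        simpa using this
      have e1 : Fin.tail t + X b i = z := by
        have := congrArg (Fin.tail (α := fun _ => ℤ)) h2
        simpa [Fin.tail_cons] using this
      have et : t = Fin.cons 0 (Fin.tail t) := by
        conv_lhs => rw [← Fin.cons_self_tail t]
        rw [e0]
      refine ⟨(Fin.tail t, i), ⟨?_, e1⟩, ?_⟩
      · simp only [mem_ofPred_eq]
        rw [← et]; exact h1
      · rintro ⟨w, k⟩ ⟨hw, hwz⟩
        simp only [mem_ofPred_eq] at hw hwz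
        have := h3 (Fin.cons 0 w, k) ⟨hw, by
          simp only
          rw [cons_add_cons, add_zero, hwz]⟩
        rw [Prod.mk.injEq] at this
        rw [Prod.mk.injEq]
        refine ⟨?_, this.2⟩
        rw [← this.1, Fin.tail_cons]
    · intro i t ht
      simp only [mem_ofPred_eq] at ht ⊢
      have := hper i.succ _ ht
      rw [cons_single] at this
      constructor
      · have h1 := this.1
        rw [cons_add_cons, add_zero] at h1
        exact h1
      · have h1 := this.2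
        have e : (Fin.cons 0 t : Fin (m + 1) → ℤ) - Fin.cons 0 (Pi.single i N) =
            Fin.cons 0 (t - Pi.single i N) := by
          rw [sub_eq_iff_eq_add, cons_add_cons]
          simp
        rw [e] at h1
        exact h1

theorem discreteAt_large : ∃ m₀ : ℕ, ∀ m, m₀ ≤ m → DiscreteAt m := by
  obtain ⟨m, J, n, X, h1, h2⟩ := discreteMain
  have h0 : DiscreteAt m := ⟨J, n, X, h1, h2⟩
  refine ⟨m, fun m' hm => ?_⟩
  induction m', hm using Nat.le_induction with
  | base => exact h0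
  | succ k _ ih => exact ih.succ

/-- the geometric part in a fixed dimension -/
theorem geometryAt {m : ℕ} (hd : DiscreteAt m) {d : ℕ} (hdm : d = m + 3) :
    ∃ S : Set (EuclideanSpace ℝ (Fin d)),
      Nonempty (S ≃ₜ Metric.closedBall (0 : EuclideanSpace ℝ (Fin d)) 1) ∧
      IsCompact S ∧ S ⊆ closure (interior S) ∧ S.Nonempty ∧
      (∃ Λ : Set (EuclideanSpace ℝ (Fin d)),
        ∀ᵐ x ∂(volume : Measure (EuclideanSpace ℝ (Fin d))),
          ∃! t, t ∈ Λ ∧ x - t ∈ S) ∧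
      ¬ ∃ Λ : Set (EuclideanSpace ℝ (Fin d)),
        (∀ᵐ x ∂(volume : Measure (EuclideanSpace ℝ (Fin d))),
          ∃! t, t ∈ Λ ∧ x - t ∈ S) ∧
        ∃ v : Fin d → EuclideanSpace ℝ (Fin d),
          LinearIndependent ℝ v ∧
            ∀ i, ∀ t ∈ Λ, t + v i ∈ Λ ∧ t - v i ∈ Λ := by
  obtain ⟨J, n', X, ⟨T, hT⟩, hno⟩ := hd
  -- normalisations
  rcases Nat.eq_zero_or_pos J with rfl | hJ
  · exact absurd ⟨∅, fun b => b.elim0, 1, one_pos, fun i t ht => ht.elim⟩ hno
  rcases n' with _ | n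
  · obtain ⟨⟨_, i⟩, _⟩ := hT ⟨0, hJ⟩ 0
    exact i.elim0
  obtain ⟨D, L, C, σ, hDJ, hDn, hDu, hL, hL1, hx⟩ :=
    exists_data hJ X (fun b => injective_of_tiles (hT b))
  -- existence of a tiling
  have ht1 := lift_tiles hDJ hDn hx hT
  obtain ⟨Λ₀, hΛ₀⟩ := D.tile_tiles _ ht1 (by
    intro t
    simp only [mem_ofPred_eq, hDu, Pi.add_apply]
    have : (fun j => t (Sum.inl j) + (Pi.single (Sum.inr false) (1 : ℤ) : Fin m ⊕ Bool → ℤ)
        (Sum.inl j)) = fun j => t (Sum.inl j) := by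
      funext j; simp
    rw [this])
  obtain ⟨eball⟩ := D.tile_ball
  -- transfer to Euclidean space
  have hcard : d = Fintype.card (Option (Fin m ⊕ Bool)) := by
    simp [hdm]
  have hfr : Module.finrank ℝ (EuclideanSpace ℝ (Fin d)) = Module.finrank ℝ ((Fin m ⊕ Bool → ℝ) × ℝ) := by
    simp [hdm]
  let φ : EuclideanSpace ℝ (Fin d) ≃L[ℝ] (Fin m ⊕ Bool → ℝ) × ℝ := ContinuousLinearEquiv.ofFinrankEq hfr
  set S : Set (EuclideanSpace ℝ (Fin d)) := φ.symm '' D.tile with hS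
  have memS : ∀ x, x ∈ S ↔ φ x ∈ D.tile := by
    intro x
    constructor
    · rintro ⟨y, hy, rfl⟩; simpa using hy
    · intro h; exact ⟨φ x, h, by simp⟩
  have hRC : GeoData.RC S := GeoData.RC.image φ.symm.toHomeomorph D.RC_tile
  refine ⟨S, ?_, hRC.compact, hRC.regular, D.tile_nonempty.image _, ?_, ?_⟩
  · have e1 : ↥S ≃ₜ ↥D.tile := (φ.symm.toHomeomorph.image D.tile).symm
    have e2 : ↥(Metric.closedBall (0 : (Fin m ⊕ Bool → ℝ) × ℝ) 1) ≃ₜ
        ↥(φ.symm '' (Metric.closedBall (0 : (Fin m ⊕ Bool → ℝ) × ℝ) 1)) :=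
      φ.symm.toHomeomorph.image _
    obtain ⟨e3⟩ := ball_of_convex (S := φ.symm '' (Metric.closedBall (0 : (Fin m ⊕ Bool → ℝ) × ℝ) 1))
      (Homeomorph.refl _) (by
        simpa using (convex_closedBall (0 : (Fin m ⊕ Bool → ℝ) × ℝ) 1).linear_image
          (φ.symm : ((Fin m ⊕ Bool → ℝ) × ℝ) →ₗ[ℝ] EuclideanSpace ℝ (Fin d)))
      ((isCompact_closedBall _ _).image φ.symm.continuous) (by
        have : (interior (Metric.closedBall (0 : (Fin m ⊕ Bool → ℝ) × ℝ) 1)).Nonempty :=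
          ⟨0, Metric.ball_subset_interior_closedBall (Metric.mem_ball_self one_pos)⟩
        have h3 := this.image φ.symm
        rwa [show φ.symm '' interior (Metric.closedBall (0 : (Fin m ⊕ Bool → ℝ) × ℝ) 1) =
          interior (φ.symm '' (Metric.closedBall (0 : (Fin m ⊕ Bool → ℝ) × ℝ) 1)) from
            φ.symm.toHomeomorph.image_interior _] at h3)
    exact ⟨((e1.trans eball).trans e2).trans e3⟩
  · refine ⟨φ.symm '' Λ₀, ?_⟩
    have := ae_transfer (volume : Measure (EuclideanSpace ℝ (Fin d)))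
      (volume : Measure ((Fin m ⊕ Bool → ℝ) × ℝ)) φ hΛ₀
    filter_upwards [this] with x hx
    obtain ⟨t, ⟨h1, h2⟩, h3⟩ := hx
    refine ⟨φ.symm t, ⟨⟨t, h1, rfl⟩, ?_⟩, ?_⟩
    · rw [memS]; simpa using h2
    · rintro y ⟨⟨t', ht', rfl⟩, hy⟩
      rw [memS] at hy
      rw [h3 t' ⟨ht', by simpa using hy⟩]
  · rintro ⟨Λ, hΛ, v, hv, hper⟩
    -- back to the product space
    have hΛ' : ∀ᵐ p : (Fin m ⊕ Bool → ℝ) × ℝ, ∃! t, t ∈ φ '' Λ ∧ p - t ∈ D.tile := by
      have := ae_transfer (volume : Measure ((Fin m ⊕ Bool → ℝ) × ℝ))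
        (volume : Measure (EuclideanSpace ℝ (Fin d))) φ.symm hΛ
      filter_upwards [this] with x hx
      obtain ⟨t, ⟨h1, h2⟩, h3⟩ := hx
      rw [memS] at h2
      refine ⟨φ t, ⟨⟨t, h1, rfl⟩, by simpa using h2⟩, ?_⟩
      rintro y ⟨⟨t', ht', rfl⟩, hy⟩
      rw [h3 t' ⟨ht', by rw [memS]; simpa using hy⟩]
    let e : Option (Fin m ⊕ Bool) ≃ Fin d := (Fintype.equivFin _).trans (finCongr hcard.symm)
    obtain ⟨T', hT', N, hN, hNp⟩ := rigidStatement (Fin m ⊕ Bool) D (φ '' Λ) hΛ'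
      (fun i => φ (v (e i))) (by
        have h1 := hv.map' (φ : EuclideanSpace ℝ (Fin d) →ₗ[ℝ] (Fin m ⊕ Bool → ℝ) × ℝ)
          (LinearMap.ker_eq_bot.2 φ.injective)
        exact h1.comp _ e.injective)
      (by
        rintro i _ ⟨t, ht, rfl⟩
        have := hper (e i) t ht
        exact ⟨⟨_, this.1, by simp⟩, ⟨_, this.2, by simp⟩⟩)
    obtain ⟨h1, h2⟩ := unlift_tiles hDJ hDn hL hL1 hx hT' hNp
    exact hno ⟨_, h1, N, hN, h2⟩

end Pool.Agent.BallTile
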